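import Pool.Agent.Helper92.FR.GoalsC

/-!
# Few rows in a box: PTV, the volume of the slice is computed in polynomial time
-/

namespace Pool.Agent.Helper2.FR

open Pool.Agent.Helper81.CC Pool.Agent.Bin Pool.Agent.Helper92.VP Pool.Agent.Helper92.FR

variable {α : Type} [ToData α]

theorem pt_invNat {n : α → ℕ} (hn : PolyTime n) : PolyTime fun a => invNat (n a) := by
  unfold invNat
  fun_prop

theorem pt_qNat {n : α → ℕ} (hn : PolyTime n) : PolyTime fun a => qNat (n a) := by
  unfold qNat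
  fun_prop

theorem pt_nrow {D : α → Nin} (hD : PolyTime D) : PolyTime fun a => nrow (D a) := by
  unfold nrow
  fun_prop

theorem pt_piT {n : α → ℕ} (hn : PolyTime n) : PolyTime fun a => piT (n a) := by
  unfold piT
  refine PT_qsum (PolyTime.list_map (f := fun (_ : α) (k : ℕ) =>
    if k % 2 = 0 then ((⟨4⟩, ⟨0⟩, BN.ofNat (2 * k)) : Qn) else (⟨0⟩, ⟨4⟩, BN.ofNat (2 * k)))
    (by fun_prop) ?_)
  fun_prop

/-- PTV. The volume of the slice. -/
theorem ptv (hF : PtfStmt) (hT : PttStmt) (hG : PtgStmt) : PtvStmt := by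
  intro α _ D lam P K KE W M H m np W2 hD hlam hP hK hKE hW hM hH hm hnp hW2 hmW
  have hh' : PolyTime (fun a => hh (D a) (lam a)) := (hG α D lam P K hD hlam hP hK).1
  have hTT := hT α (fun a => hh (D a) (lam a)) m W2 hh' hm hW2 hmW
  have hdet : PolyTime (fun a => tdet (hh (D a) (lam a)) (m a)) := hTT.2
  have hmat : PolyTime (fun a => tmat (hh (D a) (lam a)) (m a)) := hTT.1
  have hnr : PolyTime (fun a => nrow (D a)) := pt_nrow hD
  have hpi : PolyTime (fun a => piT (np a)) := pt_piT hnp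
  have hq2 : PolyTime (fun _ : α => qNat 2) := pt_qNat (by fun_prop)
  have hinH : PolyTime (fun a => invNat (H a)) := pt_invNat hH
  have hrep : PolyTime (fun a => List.replicate (nrow (D a))
      (Qn.mul (invNat (H a)) (Qn.inv (Qn.mul (qNat 2) (piT (np a)))))) :=
    PolyTime.replicate hnr (by fun_prop)
  have hfst : PolyTime (fun z : α × ℕ => z.1) := by fun_prop
  have hsmd : PolyTime (fun z : α × ℕ => smd (D z.1) (lam z.1)
      (tmat (hh (D z.1) (lam z.1)) (m z.1)) (P z.1) (K z.1) (KE z.1) (W z.1) (M z.1) (H z.1)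
      z.2) :=
    hF (α × ℕ) (fun z => D z.1) (fun z => lam z.1) (fun z => tmat (hh (D z.1) (lam z.1)) (m z.1))
      (fun z => P z.1) (fun z => K z.1) (fun z => KE z.1) (fun z => W z.1) (fun z => M z.1)
      (fun z => H z.1) (fun z => z.2)
      (PolyTime.comp hD hfst) (PolyTime.comp hlam hfst) (PolyTime.comp hmat hfst)
      (PolyTime.comp hP hfst) (PolyTime.comp hK hfst) (PolyTime.comp hKE hfst)
      (PolyTime.comp hW hfst) (PolyTime.comp hM hfst) (PolyTime.comp hH hfst) (by fun_prop)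
  have hcpw : PolyTime (fun a =>
      Pool.Agent.Helper78.DT.cpw (W a) (2 * M a + 1) (nrow (D a))) :=
    Pool.Agent.Helper3.DT.pt_cpw hW (by fun_prop) hnr
  have hsum : PolyTime (fun a =>
      Cn.sum ((List.range (Pool.Agent.Helper78.DT.cpw (W a) (2 * M a + 1) (nrow (D a)))).map
        fun n0 => smd (D a) (lam a) (tmat (hh (D a) (lam a)) (m a)) (P a) (K a) (KE a) (W a)
          (M a) (H a) n0)) :=
    PT_csum (PolyTime.list_map (f := fun (a : α) (n0 : ℕ) =>
      smd (D a) (lam a) (tmat (hh (D a) (lam a)) (m a)) (P a) (K a) (KE a) (W a)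
          (M a) (H a) n0) (PolyTime.range hcpw) hsmd)
  unfold vslice
  exact PT_qmul (PT_qmul hdet (PT_qprod hrep)) (PT_cre hsum)

end Pool.Agent.Helper2.FR
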