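import Pool.Agent.Helper92.FR.GoalsA

/-!
# Few rows in a box, packet TRG: growth of the logarithm of the partition function
-/

set_option autoImplicit false

namespace Pool.Agent.Helper2.FR

open MeasureTheory Pool.Agent.Helper92.FR

theorem MM_ge {a u v t : ℝ} (hu : 0 ≤ u) (huv : u ≤ v) (hv : v ≤ 1)
    (h : ∀ x, u ≤ x → x ≤ v → t ≤ a * x) : (v - u) * Real.exp t ≤ MM a := by
  have hc : Continuous fun x : ℝ => Real.exp (a * x) := by fun_prop
  have h1 : ∫ x in u..v, Real.exp (a * x) ≤ MM a := by
    unfold MM
    apply intervalIntegral.integral_mono_interval hu huv hv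
    · exact Filter.Eventually.of_forall fun x => (Real.exp_pos _).le
    · exact hc.intervalIntegrable _ _
  have h2 : ∫ _x in u..v, Real.exp t ≤ ∫ x in u..v, Real.exp (a * x) := by
    apply intervalIntegral.integral_mono_on huv
    · exact continuous_const.intervalIntegrable _ _
    · exact hc.intervalIntegrable _ _
    · intro x hx
      exact Real.exp_le_exp.2 (h x hx.1 hx.2)
  rw [intervalIntegral.integral_const, smul_eq_mul] at h2
  exact h2.trans h1

theorem trg : TrgStmt := by
  intro a c σ hσ h1 h2
  have key : σ / 2 * Real.exp (a * c + |a| * σ / 2) ≤ MM a := by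
    rcases le_total 0 a with ha | ha
    · rw [abs_of_nonneg ha]
      have := MM_ge (a := a) (u := c + σ / 2) (v := c + σ) (t := a * c + a * σ / 2)
        (by linarith) (by linarith) h2 (by
          intro x hx _
          have := mul_le_mul_of_nonneg_left hx ha
          linarith)
      rwa [show c + σ - (c + σ / 2) = σ / 2 by ring] at this
    · rw [abs_of_nonpos ha]
      have := MM_ge (a := a) (u := c - σ) (v := c - σ / 2) (t := a * c + -a * σ / 2)
        (by linarith) (by linarith) (by linarith) (by
          intro x _ hx
          have := mul_le_mul_of_nonneg_left hx (neg_nonneg.2 ha)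
          linarith)
      rwa [show c - σ / 2 - (c - σ) = σ / 2 by ring] at this
  have hp : 0 < σ / 2 * Real.exp (a * c + |a| * σ / 2) := by positivity
  have h3 := Real.log_le_log hp key
  rw [Real.log_mul (by positivity) (Real.exp_pos _).ne', Real.log_exp] at h3
  unfold GG
  linarith

end Pool.Agent.Helper2.FR
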