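import Pool.Agent.Helper55.FR.GoalsA

namespace Pool.Agent.Helper2.FR

open Finset Pool.Agent.Helper55.FR

variable {V : Type} [Fintype V] [DecidableEq V]

omit [Fintype V] in
theorem even_card (e : Equiv.Perm V) (K : Finset V) (P : V → Prop) [DecidablePred P]
    (h1 : ∀ x ∈ K, e x ∈ K) (h2 : ∀ x ∈ K, (P x ↔ ¬ P (e x))) : Even K.card := by
  have ha : (K.filter P).card ≤ (K.filter fun x => ¬ P x).card := by
    apply Finset.card_le_card_of_injOn e
    · intro x hx
      have hx' := Finset.mem_filter.1 (Finset.mem_coe.1 hx)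
      exact Finset.mem_coe.2 (Finset.mem_filter.2 ⟨h1 x hx'.1, (h2 x hx'.1).1 hx'.2⟩)
    · exact e.injective.injOn
  have hb : (K.filter fun x => ¬ P x).card ≤ (K.filter P).card := by
    apply Finset.card_le_card_of_injOn e
    · intro x hx
      have hx' := Finset.mem_filter.1 (Finset.mem_coe.1 hx)
      refine Finset.mem_coe.2 (Finset.mem_filter.2 ⟨h1 x hx'.1, ?_⟩)
      by_contra hc
      exact hx'.2 ((h2 x hx'.1).2 hc)
    · exact e.injective.injOn
  have hc := Finset.card_filter_add_card_filter_not (s := K) P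
  exact ⟨(K.filter P).card, by omega⟩

/-- The weight. -/
def wt (T I S : Finset V) (ρ : V → Lab) (x : V) : ℤ :=
  (if x ∈ T ∩ S then 1 else 0) - (if x ∈ I ∩ S then 1 else 0)
    + (if x ∈ S.filter (fun x => ρ x = Lab.I) then 1 else 0)
    - (if x ∈ S.filter (fun x => ρ x = Lab.T) then 1 else 0)

theorem sum_wt (T I S : Finset V) (ρ : V → Lab) :
    ∑ x, wt T I S ρ x = ((T ∩ S).card : ℤ) - (I ∩ S).card
      + (S.filter fun x => ρ x = Lab.I).card - (S.filter fun x => ρ x = Lab.T).card := by
  unfold wt
  rw [Finset.sum_sub_distrib, Finset.sum_add_distrib, Finset.sum_sub_distrib]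
  simp only [Finset.sum_boole, Finset.filter_mem_eq_inter, Finset.univ_inter]

theorem uns : UnsStmt := by
  intro V _ _ n m B g T I Q ρ S hC hB hBar hO hSD hcl hZ
  obtain ⟨pre, cov, -⟩ := hBar
  -- facts on S
  have hnz : ∀ x ∈ S, ¬ isK (ρ x) ∧ ρ (n x) ≠ ρ x ∧ ρ (n.symm x) ≠ ρ x ∧ ρ (m x) ≠ ρ x := by
    intro x hx
    have h := Finset.disjoint_left.1 hZ hx
    simp only [Zs, Finset.mem_filter, Finset.mem_univ, true_and, not_or] at h
    exact h
  have hTI : ∀ x, ¬ isK (ρ x) → ρ x = Lab.T ∨ ρ x = Lab.I := by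
    intro x hx
    have h0 := hO x
    unfold isK at hx
    cases h : ρ x <;> simp_all
  have hSTI : ∀ x ∈ S, ρ x = Lab.T ∨ ρ x = Lab.I := fun x hx => hTI x (hnz x hx).1
  have hadjn : ∀ x, adj n m x (n x) := fun x => Or.inl rfl
  have hadjs : ∀ x, adj n m x (n.symm x) := fun x => Or.inr (Or.inl (by simp))
  -- neighbours of S along n
  have hnb : ∀ a b, (b = n a ∨ b = n.symm a) → a ∈ S → ρ b ≠ ρ a ∧ (ρ b = Lab.T ∨ ρ b = Lab.I) := by
    intro a b hab ha
    have hadj : adj n m a b := by
      rcases hab with h | h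
      · rw [h]; exact hadjn a
      · rw [h]; exact hadjs a
    constructor
    · rcases hab with h | h
      · rw [h]; exact (hnz a ha).2.1
      · rw [h]; exact (hnz a ha).2.2.1
    · apply hTI
      intro hk
      have hbD : b ∈ DifT ρ T I := by
        unfold DifT
        exact Finset.mem_filter.2 ⟨Finset.mem_univ _, Or.inl hk⟩
      exact (hnz b (hcl a ha b hbD hadj)).1 hk
  have hmD : ∀ x, x ∉ T → x ∉ I → x ∈ DifT ρ T I := by
    intro x h1 h2
    unfold DifT
    refine Finset.mem_filter.2 ⟨Finset.mem_univ _, Or.inr ?_⟩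
    rintro (h | h)
    · exact h1 h.1
    · exact h2 h.1
  have hTr : ∀ x ∈ S, x ∈ T → ρ x = Lab.I := by
    intro x hx hxT
    have h := hSD hx
    unfold DifT at h
    rcases (Finset.mem_filter.1 h).2 with h | h
    · exact absurd h (hnz x hx).1
    · rcases hSTI x hx with h3 | h3
      · exact absurd (Or.inl ⟨hxT, h3⟩) h
      · exact h3
  have hIr : ∀ x ∈ S, x ∈ I → ρ x = Lab.T := by
    intro x hx hxI
    have h := hSD hx
    unfold DifT at h
    rcases (Finset.mem_filter.1 h).2 with h | h
    · exact absurd h (hnz x hx).1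
    · rcases hSTI x hx with h3 | h3
      · exact h3
      · exact absurd (Or.inr ⟨hxI, h3⟩) h
  have hnT : ∀ x, x ∈ T → ∀ K ∈ Q, x ∉ K := fun x hx K hK h =>
    Finset.disjoint_left.1 (pre.tK K hK) hx h
  have hnI : ∀ x, x ∈ I → ∀ K ∈ Q, x ∉ K := fun x hx K hK h =>
    Finset.disjoint_left.1 (pre.iK K hK) hx h
  have hnTI : ∀ x, x ∈ T → x ∉ I := fun x hx h => Finset.disjoint_left.1 pre.tI hx h
  -- components meeting S
  have hKS : ∀ K ∈ Q, ∀ x ∈ K, x ∈ S → K ⊆ S := by
    intro K hK x hxK hxS
    have h := pre.con K hK (K ∩ S) Finset.inter_subset_left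
      ⟨x, Finset.mem_inter.2 ⟨hxK, hxS⟩⟩ (by
        intro a ha b hb hab
        have ha' := Finset.mem_inter.1 ha
        refine Finset.mem_inter.2 ⟨hb, hcl a ha'.2 b ?_ ?_⟩
        · exact hmD b (fun h => hnT b h K hK hb) (fun h => hnI b h K hK hb)
        · rcases hab with h | h | h
          · exact Or.inl h
          · exact Or.inr (Or.inl h)
          · exact Or.inr (Or.inr h.1))
    rw [← h]
    exact Finset.inter_subset_right
  -- values of the weight
  have hw0 : ∀ x, x ∉ S → wt T I S ρ x = 0 := by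
    intro x hx
    simp [wt, hx]
  have hwT : ∀ x ∈ S, x ∈ T → wt T I S ρ x = 2 := by
    intro x hx hxT
    have h1 := hTr x hx hxT
    have h2 := hnTI x hxT
    simp [wt, hx, hxT, h1, h2]
  have hwI : ∀ x ∈ S, x ∈ I → wt T I S ρ x = -2 := by
    intro x hx hxI
    have h1 := hIr x hx hxI
    have h2 : x ∉ T := fun h => hnTI x h hxI
    simp [wt, hx, hxI, h1, h2]
  have hwKI : ∀ x ∈ S, x ∉ T → x ∉ I → ρ x = Lab.I → wt T I S ρ x = 1 := by
    intro x hx h1 h2 h3
    simp [wt, hx, h1, h2, h3]
  have hwKT : ∀ x ∈ S, x ∉ T → x ∉ I → ρ x = Lab.T → wt T I S ρ x = -1 := by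
    intro x hx h1 h2 h3
    simp [wt, hx, h1, h2, h3]
  have hwge : ∀ x, -2 ≤ wt T I S ρ x := by
    intro x
    by_cases hx : x ∈ S
    · by_cases h1 : x ∈ T
      · rw [hwT x hx h1]; norm_num
      · by_cases h2 : x ∈ I
        · rw [hwI x hx h2]
        · rcases hSTI x hx with h3 | h3
          · rw [hwKT x hx h1 h2 h3]; norm_num
          · rw [hwKI x hx h1 h2 h3]; norm_num
    · rw [hw0 x hx]; norm_num
  -- the edge inequality
  have hcKn : ∀ K ∈ Q, ∀ a ∈ K, ∀ b, (b = n a ∨ b = n.symm a) → b ∈ K ∨ b ∈ T := by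
    intro K hK a ha b hab
    have h := pre.cK K hK a ha
    rcases hab with h' | h'
    · rw [h']; exact h.1
    · rw [h']; exact h.2.1
  have hedge1 : ∀ a b, (b = n a ∨ b = n.symm a) → a ∈ S → ∀ K ∈ Q, a ∈ K → b ∉ K →
      wt T I S ρ a + wt T I S ρ b = 1 := by
    intro a b hab ha K hK haK hbK
    have haT : a ∉ T := fun h => hnT a h K hK haK
    have haI : a ∉ I := fun h => hnI a h K hK haK
    have hbT : b ∈ T := (hcKn K hK a haK b hab).resolve_left hbK
    obtain ⟨hne, hb'⟩ := hnb a b hab ha
    by_cases hbS : b ∈ S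
    · have h1 := hTr b hbS hbT
      have h2 : ρ a = Lab.T := by
        rcases hSTI a ha with h | h
        · exact h
        · exact absurd (h1.trans h.symm) hne
      rw [hwT b hbS hbT, hwKT a ha haT haI h2]
      norm_num
    · have hbD : b ∉ DifT ρ T I := by
        intro h
        apply hbS
        refine hcl a ha b h ?_
        rcases hab with h' | h'
        · rw [h']; exact hadjn a
        · rw [h']; exact hadjs a
      have h1 : ρ b = Lab.T := by
        unfold DifT at hbD
        rw [Finset.mem_filter] at hbD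
        by_contra hc
        apply hbD
        refine ⟨Finset.mem_univ _, Or.inr ?_⟩
        rintro (h | h)
        · exact hc h.2
        · exact hnTI b hbT h.1
      have h2 : ρ a = Lab.I := by
        rcases hSTI a ha with h | h
        · exact absurd (h1.trans h.symm) hne
        · exact h
      rw [hw0 b hbS, hwKI a ha haT haI h2]
      norm_num
  have hedge0 : ∀ a b, (b = n a ∨ b = n.symm a) → a ∈ S →
      0 ≤ wt T I S ρ a + wt T I S ρ b := by
    intro a b hab ha
    obtain ⟨hne, hb'⟩ := hnb a b hab ha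
    by_cases haT : a ∈ T
    · rw [hwT a ha haT]
      have := hwge b
      omega
    · by_cases haI : a ∈ I
      · have hbT : b ∈ T := by
          have h := pre.cI a haI
          rcases hab with h' | h'
          · rw [h']; exact h.1
          · rw [h']; exact h.2.1
        have h1 := hIr a ha haI
        have h2 : ρ b = Lab.I := by
          rcases hb' with h | h
          · exact absurd (h.trans h1.symm) hne
          · exact h
        have hbD : b ∈ DifT ρ T I := by
          unfold DifT
          refine Finset.mem_filter.2 ⟨Finset.mem_univ _, Or.inr ?_⟩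
          rintro (h | h)
          · rw [h2] at h; exact absurd h.2 (by decide)
          · exact hnTI b hbT h.1
        have hbS : b ∈ S := by
          refine hcl a ha b hbD ?_
          rcases hab with h' | h'
          · rw [h']; exact hadjn a
          · rw [h']; exact hadjs a
        rw [hwI a ha haI, hwT b hbS hbT]
        norm_num
      · rcases cov a with h | h | ⟨K, hK, haK⟩
        · exact absurd h haT
        · exact absurd h haI
        · by_cases hbK : b ∈ K
          · have hbS : b ∈ S := hKS K hK a haK ha hbK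
            have hbT : b ∉ T := fun h => hnT b h K hK hbK
            have hbI : b ∉ I := fun h => hnI b h K hK hbK
            rcases hSTI a ha with h3 | h3
            · have h4 : ρ b = Lab.I := by
                rcases hb' with h | h
                · exact absurd (h.trans h3.symm) hne
                · exact h
              rw [hwKT a ha haT haI h3, hwKI b hbS hbT hbI h4]
              norm_num
            · have h4 : ρ b = Lab.T := by
                rcases hb' with h | h
                · exact h
                · exact absurd (h.trans h3.symm) hne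
              rw [hwKI a ha haT haI h3, hwKT b hbS hbT hbI h4]
              norm_num
          · rw [hedge1 a b hab ha K hK haK hbK]
            norm_num
  -- counting
  set QS := Q.filter fun K => K ⊆ S with hQS
  have hsum1 : ∀ x, ∑ K ∈ QS, (if ¬ (x ∈ K ↔ n x ∈ K) then (1 : ℤ) else 0) ≤
      wt T I S ρ x + wt T I S ρ (n x) := by
    intro x
    rw [Finset.sum_boole]
    have hnn : 0 ≤ wt T I S ρ x + wt T I S ρ (n x) := by
      by_cases h1 : x ∈ S
      · exact hedge0 x (n x) (Or.inl rfl) h1
      · by_cases h2 : n x ∈ S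
        · have := hedge0 (n x) x (Or.inr (by simp)) h2
          omega
        · rw [hw0 x h1, hw0 (n x) h2]; norm_num
    by_cases hex : ∃ K ∈ QS, ¬ (x ∈ K ↔ n x ∈ K)
    · obtain ⟨K, hK, hxK⟩ := hex
      have hKQ : K ∈ Q := (Finset.mem_filter.1 hK).1
      have hKsub : K ⊆ S := (Finset.mem_filter.1 hK).2
      have hval : wt T I S ρ x + wt T I S ρ (n x) = 1 := by
        by_cases h1 : x ∈ K
        · have h2 : n x ∉ K := fun h => hxK ⟨fun _ => h, fun _ => h1⟩
          exact hedge1 x (n x) (Or.inl rfl) (hKsub h1) K hKQ h1 h2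
        · have h2 : n x ∈ K := by
            by_contra h
            exact hxK ⟨fun h' => absurd h' h1, fun h' => absurd h' h⟩
          have := hedge1 (n x) x (Or.inr (by simp)) (hKsub h2) K hKQ h2 h1
          omega
      rw [hval]
      have hcard : (QS.filter fun K => ¬ (x ∈ K ↔ n x ∈ K)).card ≤ 1 := by
        rw [Finset.card_le_one]
        intro K1 h1 K2 h2
        have h1' := Finset.mem_filter.1 h1
        have h2' := Finset.mem_filter.1 h2
        have hq1 : K1 ∈ Q := (Finset.mem_filter.1 h1'.1).1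
        have hq2 : K2 ∈ Q := (Finset.mem_filter.1 h2'.1).1
        by_contra hne
        have hd := Finset.disjoint_left.1 (pre.kK K1 hq1 K2 hq2 hne)
        have key : ∀ K1 ∈ Q, ∀ K2 ∈ Q, (∀ y, y ∈ K1 → y ∉ K2) →
            ¬ (x ∈ K1 ↔ n x ∈ K1) → (x ∈ K2 ↔ n x ∈ K2) := by
          intro K1 hq1 K2 hq2 hd h
          by_cases ha : x ∈ K1
          · have hb : n x ∉ K1 := fun h' => h ⟨fun _ => h', fun _ => ha⟩
            have hbT : n x ∈ T := (hcKn K1 hq1 x ha (n x) (Or.inl rfl)).resolve_left hb
            exact ⟨fun h' => absurd h' (hd x ha), fun h' => absurd h' (hnT _ hbT K2 hq2)⟩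
          · have hb : n x ∈ K1 := by
              by_contra h'
              exact h ⟨fun h'' => absurd h'' ha, fun h'' => absurd h'' h'⟩
            have hbT : x ∈ T := (hcKn K1 hq1 (n x) hb x (Or.inr (by simp))).resolve_left ha
            exact ⟨fun h' => absurd h' (hnT _ hbT K2 hq2), fun h' => absurd h' (hd _ hb)⟩
        exact h2'.2 (key K1 hq1 K2 hq2 (fun y hy hy' => hd hy hy') h1'.2)
      exact_mod_cast hcard
    · have hcard : (QS.filter fun K => ¬ (x ∈ K ↔ n x ∈ K)) = ∅ := by
        rw [Finset.filter_eq_empty_iff]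
        intro K hK h
        exact hex ⟨K, hK, h⟩
      rw [hcard]
      simpa using hnn
  have hsum2 : ∀ K ∈ QS, (2 : ℤ) ≤ ∑ x, (if ¬ (x ∈ K ↔ n x ∈ K) then (1 : ℤ) else 0) := by
    intro K hK
    have hKQ : K ∈ Q := (Finset.mem_filter.1 hK).1
    have hKsub : K ⊆ S := (Finset.mem_filter.1 hK).2
    rw [Finset.sum_boole]
    have hodd : ¬ Even K.card := by
      rw [Nat.not_even_iff_odd]
      exact pre.odd K hKQ
    have h1 : ∃ x ∈ K, n x ∉ K := by
      by_contra hc
      push Not at hc
      apply hodd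
      refine even_card n K (fun x => ρ x = Lab.T) hc ?_
      intro x hx
      obtain ⟨h1, h2⟩ := hnb x (n x) (Or.inl rfl) (hKsub hx)
      rcases hSTI x (hKsub hx) with h3 | h3
      · exact ⟨fun _ h => h1 (h.trans h3.symm), fun _ => h3⟩
      · refine ⟨fun h => ?_, fun h => ?_⟩
        · rw [h3] at h; exact absurd h (by decide)
        · rcases h2 with h2 | h2
          · exact absurd h2 h
          · exact absurd (h2.trans h3.symm) h1
    have h2 : ∃ x ∈ K, n.symm x ∉ K := by
      by_contra hc
      push Not at hc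
      apply hodd
      refine even_card n.symm K (fun x => ρ x = Lab.T) hc ?_
      intro x hx
      obtain ⟨h1, h2⟩ := hnb x (n.symm x) (Or.inr rfl) (hKsub hx)
      rcases hSTI x (hKsub hx) with h3 | h3
      · exact ⟨fun _ h => h1 (h.trans h3.symm), fun _ => h3⟩
      · refine ⟨fun h => ?_, fun h => ?_⟩
        · rw [h3] at h; exact absurd h (by decide)
        · rcases h2 with h2 | h2
          · exact absurd h2 h
          · exact absurd (h2.trans h3.symm) h1
    obtain ⟨x, hx, hx'⟩ := h1
    obtain ⟨y, hy, hy'⟩ := h2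
    have h3 : ({x, n.symm y} : Finset V) ⊆ univ.filter fun x => ¬ (x ∈ K ↔ n x ∈ K) := by
      intro z hz
      rw [Finset.mem_insert, Finset.mem_singleton] at hz
      rw [Finset.mem_filter]
      refine ⟨Finset.mem_univ _, ?_⟩
      rcases hz with rfl | rfl
      · intro h; exact hx' (h.1 hx)
      · intro h
        apply hy'
        apply h.2
        simpa using hy
    have h4 : x ≠ n.symm y := by
      rintro rfl
      exact hy' hx
    have h5 := Finset.card_le_card h3
    rw [Finset.card_pair h4] at h5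
    exact_mod_cast h5
  have hfin : (2 : ℤ) * QS.card ≤ ∑ x, (wt T I S ρ x + wt T I S ρ (n x)) := by
    calc (2 : ℤ) * QS.card = ∑ K ∈ QS, (2 : ℤ) := by
          rw [Finset.sum_const, nsmul_eq_mul, mul_comm]
      _ ≤ ∑ K ∈ QS, ∑ x, (if ¬ (x ∈ K ↔ n x ∈ K) then (1 : ℤ) else 0) :=
          Finset.sum_le_sum hsum2
      _ = ∑ x, ∑ K ∈ QS, (if ¬ (x ∈ K ↔ n x ∈ K) then (1 : ℤ) else 0) := Finset.sum_comm
      _ ≤ _ := Finset.sum_le_sum fun x _ => hsum1 x
  rw [Finset.sum_add_distrib, Equiv.sum_comp n (wt T I S ρ), sum_wt] at hfin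
  have : ((I ∩ S).card : ℤ) + QS.card + (S.filter fun x => ρ x = Lab.T).card ≤
      (T ∩ S).card + (S.filter fun x => ρ x = Lab.I).card := by linarith
  exact_mod_cast this

end Pool.Agent.Helper2.FR
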